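import Pool.Agent.J6H50.RF.Stm

/-!
# Project RF (MP_9649a7_lc, helper50), module RF-23: certificates from p-optimal proof systems
-/

set_option autoImplicit false

namespace Pool.Agent.J6H61.RF23

open Pool.Agent.J6H50.RF Pool.Agent.NPC

/-- the code of an element, as a string, in polynomial time -/
theorem poly_bits {α : Type} [TEnc α] : Poly (fun a : α => bits a) := by
  have h : PC (bits : α → List Bool) (fun x : List Bool => x) (fun a : α => bits a) := PC.id
  exact PC.comp (g := fun x : List Bool => x) (f := fun a : α => bits a) PC.rawIn h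

theorem m23 : S_ca := by
  intro hraw μ hpi L hL hopt
  obtain ⟨h, ⟨hpt, hrange⟩, hop⟩ := hopt
  obtain ⟨f, hf, hfL⟩ := hL _ hpi
  have hP : Poly h := hraw.1 h hpt
  have fP : Poly f := hraw.1 f hf
  have hmem : ∀ (e : ℕ) (n t : List Unit),
      f (bits (e, n, t)) ∈ L ↔ Cond μ e n.length t.length := by
    intro e n t
    rw [← hfL]
    exact bits_mem_lang (P := fun a : ℕ × List Unit × List Unit => Cond μ a.1 a.2.1.length a.2.2.length)
      (a := (e, n, t))
  have hin : ∀ w, h w ∈ L := by
    intro w
    rw [← hrange]
    exact ⟨w, rfl⟩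
  refine ⟨fun a => decide (h a.2.2.2 = f (bits (a.1, a.2.1, a.2.2.1))), ?_, ?_, ?_⟩
  · exact NPC.Poly.decide_eq (hP.comp (NPC.Poly.snd (NPC.Poly.snd (NPC.Poly.snd NPC.Poly.id))))
      (fP.comp (poly_bits.comp (NPC.Poly.pair (NPC.Poly.fst NPC.Poly.id)
        (NPC.Poly.pair (NPC.Poly.fst (NPC.Poly.snd NPC.Poly.id)) (NPC.Poly.fst (NPC.Poly.snd (NPC.Poly.snd NPC.Poly.id)))))))
  · intro e n t π hC
    have h1 : h π = f (bits (e, n, t)) := of_decide_eq_true hC
    rw [← hmem, ← h1]
    exact hin π
  · intro e t ht hcond
    have hU : Poly (fun p : List Bool × Bool × List Bool => p.2.2.map (fun _ => ())) :=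
      NPC.Poly.map (l := fun p : List Bool × Bool × List Bool => p.2.2) (F := fun _ _ => ())
        (NPC.Poly.snd (NPC.Poly.snd NPC.Poly.id)) (NPC.Poly.const _)
    have h'P : Poly (fun x : List Bool => match x with
        | [] => h []
        | b :: w => bif b then f (bits (e, w.map (fun _ => ()), t (w.map (fun _ => ())))) else h w) := by
      refine (NPC.Poly.listCases (l := fun x : List Bool => x) (g := fun _ => h [])
        (h := fun _ b w => bif b then f (bits (e, w.map (fun _ => ()), t (w.map (fun _ => ()))))
          else h w) NPC.Poly.id (NPC.Poly.const _) ?_).congr ?_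
      · refine NPC.Poly.cond (NPC.Poly.fst (NPC.Poly.snd NPC.Poly.id)) ?_
          (hP.comp (NPC.Poly.snd (NPC.Poly.snd NPC.Poly.id)))
        exact fP.comp (poly_bits.comp (NPC.Poly.pair (NPC.Poly.const e)
          (NPC.Poly.pair hU (ht.comp hU))))
      · intro x
        rcases x with _ | ⟨b, w⟩ <;> rfl
    obtain ⟨g, hg, hgh⟩ := hop _ ⟨hraw.2 _ h'P, by
      apply Set.Subset.antisymm
      · rintro y ⟨x, rfl⟩
        rcases x with _ | ⟨b, w⟩
        · exact hin _
        · cases b with
          | false => exact hin w
          | true =>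
            change f (bits (e, w.map (fun _ => ()), t (w.map (fun _ => ())))) ∈ L
            rw [hmem]
            exact hcond _
      · intro y hy
        rw [← hrange] at hy
        obtain ⟨w, rfl⟩ := hy
        exact ⟨false :: w, rfl⟩⟩
    have hgP : Poly g := hraw.1 g hg
    refine ⟨fun n => g (true :: n.map (fun _ => true)), ?_, ?_⟩
    · exact hgP.comp (NPC.Poly.cons (NPC.Poly.const _)
        (NPC.Poly.map (l := fun n : List Unit => n) (F := fun _ _ => true) NPC.Poly.id (NPC.Poly.const _)))
    · intro n
      apply decide_eq_true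
      change h (g (true :: n.map (fun _ => true))) = f (bits (e, n, t n))
      rw [hgh]
      change f (bits (e, (n.map (fun _ => true)).map (fun _ => ()),
        t ((n.map (fun _ => true)).map (fun _ => ())))) = f (bits (e, n, t n))
      have hn : (n.map (fun _ => true)).map (fun _ => ()) = n := by
        rw [List.map_map]
        exact List.map_id'' (fun _ => rfl) n
      rw [hn]

end Pool.Agent.J6H61.RF23
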