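import Pool.Agent.J6H50.RF.Stm

/-!
# Project RF (MP_9649a7_lc, helper50), module RF-04: the natural numbers satisfy the axioms BASIC
-/

set_option autoImplicit false

namespace Pool.Agent.J6H61.RF04

open Pool.Agent.J6H50.RF Pool.Agent.NPC

theorem size_d (x : ℕ) (hx : x ≠ 0) : Nat.size (2 * x) = Nat.size x + 1 := by
  have h : Nat.bit false x ≠ 0 := by
    rw [Nat.bit_val]
    simp
    exact hx
  have h2 := Nat.size_bit h
  rw [Nat.bit_val] at h2
  simpa using h2

theorem size_d1 (x : ℕ) : Nat.size (2 * x + 1) = Nat.size x + 1 := by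
  have h : Nat.bit true x ≠ 0 := by
    rw [Nat.bit_val]
    simp
  have h2 := Nat.size_bit h
  rw [Nat.bit_val] at h2
  simpa using h2

theorem size_half (x : ℕ) (hx : x ≠ 0) : Nat.size x = Nat.size (x / 2) + 1 := by
  rcases Nat.even_or_odd' x with ⟨k, hk | hk⟩
  · have hk0 : k ≠ 0 := by omega
    have e : x / 2 = k := by omega
    rw [e, hk, size_d k hk0]
  · have e : x / 2 = k := by omega
    rw [e, hk, size_d1 k]

theorem m04 : S_basN where
  b1 := fun x y h => by
    change y ≤ x at h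
    change y ≤ x + 1
    omega
  b2 := fun x => by
    change x ≠ x + 1
    omega
  b3 := fun x => Nat.zero_le x
  b4 := fun x y => by
    change (x ≤ y ∧ x ≠ y) ↔ x + 1 ≤ y
    omega
  b5 := fun x h => by
    change x ≠ 0 at h
    change (0 + 1 + 1) * x ≠ 0
    omega
  b6 := fun x y => by
    change y ≤ x ∨ x ≤ y
    omega
  b7 := fun x y h1 h2 => Nat.le_antisymm h1 h2
  b8 := fun x y z h1 h2 => Nat.le_trans h1 h2
  b9 := Nat.size_zero
  b10 := fun x h => by
    change x ≠ 0 at h
    exact ⟨size_d x h, size_d1 x⟩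
  b11 := Nat.size_one
  b12 := fun x y h => Nat.size_le_size h
  b13 := fun x y => Nat.size_pow
  b14 := fun y => by
    change 2 ^ (Nat.size 0 * Nat.size y) = 0 + 1
    rw [Nat.size_zero, Nat.zero_mul, pow_zero]
    rfl
  b15 := fun x h => by
    change x ≠ 0 at h
    change 2 ^ (Nat.size (0 + 1) * Nat.size (2 * x)) = 2 * 2 ^ (Nat.size (0 + 1) * Nat.size x) ∧
      2 ^ (Nat.size (0 + 1) * Nat.size (2 * x + 1)) = 2 * 2 ^ (Nat.size (0 + 1) * Nat.size x)
    have h1 : Nat.size (0 + 1) = 1 := Nat.size_one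
    rw [h1, size_d x h, size_d1 x, Nat.one_mul, Nat.one_mul, pow_succ, Nat.mul_comm]
    exact ⟨rfl, rfl⟩
  b16 := fun x y => by
    change 2 ^ (Nat.size x * Nat.size y) = 2 ^ (Nat.size y * Nat.size x)
    rw [Nat.mul_comm]
  b17 := fun x y z h => by
    change Nat.size x = Nat.size y at h
    change 2 ^ (Nat.size x * Nat.size z) = 2 ^ (Nat.size y * Nat.size z)
    rw [h]
  b18 := fun x y u v h => by
    change Nat.size x = Nat.size u + Nat.size v at h
    change 2 ^ (Nat.size x * Nat.size y) =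
      2 ^ (Nat.size u * Nat.size y) * 2 ^ (Nat.size v * Nat.size y)
    rw [h, Nat.add_mul, pow_add]
  b19 := fun x y => Nat.le_add_right x y
  b20 := fun x y h1 h2 => by
    change x ≤ y at h1
    change (0 + 1 + 1) * x + 1 ≤ (0 + 1 + 1) * y ∧ (0 + 1 + 1) * x + 1 ≠ (0 + 1 + 1) * y
    omega
  b21 := fun x y => Nat.add_comm x y
  b22 := fun x => Nat.add_zero x
  b23 := fun x y => rfl
  b24 := fun x y z => Nat.add_assoc x y z
  b25 := fun x y z => by
    change x + y ≤ x + z ↔ y ≤ z
    omega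
  b26 := fun x => Nat.mul_zero x
  b27 := fun x y => Nat.mul_succ x y
  b28 := fun x y => Nat.mul_comm x y
  b29 := fun x y z => Nat.mul_add x y z
  b30 := fun x y z h => by
    change 1 ≤ x at h
    change x * y ≤ x * z ↔ y ≤ z
    exact Nat.mul_le_mul_left_iff (by omega)
  b31 := fun x h => size_half x h
  b32 := fun x y => by
    change x = y / 2 ↔ ((0 + 1 + 1) * x = y ∨ (0 + 1 + 1) * x + 1 = y)
    omega

end Pool.Agent.J6H61.RF04
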